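import Pool.Agent.Helper51.AJ.St
import Pool.Agent.Helper51.AJ.Basic

set_option autoImplicit false

namespace Pool.Agent.Helper22.AJ

open Pool.Agent.Helper51.AJ

private theorem deg3 (h2 : StDeg) {V : Type} [Finite V] {B : SimpleGraph V}
    (hd : ∀ v, (B.neighborSet v).ncard ≤ 2) {S T1 T2 T3 : Set V} (hS : Con B S)
    (t1 : Tch B S T1) (t2 : Tch B S T2) (t3 : Tch B S T3)
    (d1 : Disjoint S T1) (d2 : Disjoint S T2) (d3 : Disjoint S T3)
    (d12 : Disjoint T1 T2) (d13 : Disjoint T1 T3) (d23 : Disjoint T2 T3) : False := by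
  have h := h2 V B hd S hS
  obtain ⟨x1, hx1, y1, hy1, a1⟩ := t1
  obtain ⟨x2, hx2, y2, hy2, a2⟩ := t2
  obtain ⟨x3, hx3, y3, hy3, a3⟩ := t3
  have n12 : y1 ≠ y2 := fun h => Set.disjoint_left.1 d12 hy1 (h ▸ hy2)
  have n13 : y1 ≠ y3 := fun h => Set.disjoint_left.1 d13 hy1 (h ▸ hy3)
  have n23 : y2 ≠ y3 := fun h => Set.disjoint_left.1 d23 hy2 (h ▸ hy3)
  have hsub : ({(x1, y1), (x2, y2), (x3, y3)} : Set (V × V)) ⊆
      {p : V × V | p.1 ∈ S ∧ p.2 ∉ S ∧ B.Adj p.1 p.2} := by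
    rintro p (rfl | rfl | rfl)
    · exact ⟨hx1, fun h => Set.disjoint_left.1 d1 h hy1, a1⟩
    · exact ⟨hx2, fun h => Set.disjoint_left.1 d2 h hy2, a2⟩
    · exact ⟨hx3, fun h => Set.disjoint_left.1 d3 h hy3, a3⟩
  have h3 : ({(x1, y1), (x2, y2), (x3, y3)} : Set (V × V)).ncard = 3 := by
    rw [Set.ncard_eq_three]
    refine ⟨(x1, y1), (x2, y2), (x3, y3), ?_, ?_, ?_, rfl⟩
    · exact fun h => n12 (congrArg Prod.snd h)
    · exact fun h => n13 (congrArg Prod.snd h)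
    · exact fun h => n23 (congrArg Prod.snd h)
  have h4 := Set.ncard_le_ncard hsub (Set.toFinite _)
  omega

private theorem noleave (h2 : StDeg) {V : Type} [Finite V] {B : SimpleGraph V}
    (hd : ∀ v, (B.neighborSet v).ncard ≤ 2) {S T1 T2 : Set V} (hS : Con B S)
    (t1 : Tch B S T1) (t2 : Tch B S T2) (d1 : Disjoint S T1) (d2 : Disjoint S T2)
    (d12 : Disjoint T1 T2) {x y : V} (hx : x ∈ S) (hy : y ∉ S) (ha : B.Adj x y) : y ∈ T1 ∪ T2 := by
  by_contra hn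
  rw [Set.mem_union, not_or] at hn
  exact deg3 (T3 := ({y} : Set V)) h2 hd hS t1 t2 ⟨x, hx, y, rfl, ha⟩ d1 d2 (Set.disjoint_singleton_right.2 hy) d12
    (Set.disjoint_singleton_right.2 hn.1) (Set.disjoint_singleton_right.2 hn.2)

private theorem fill (h1 : StCon) {V : Type} [Finite V] {B : SimpleGraph V} (hB : B.Connected) {U : Set V}
    (hU : U.Nonempty) (h : ∀ x ∈ U, ∀ y ∉ U, ¬ B.Adj x y) : ∀ v, v ∈ U := by
  by_contra hn
  push Not at hn
  obtain ⟨v, hv⟩ := hn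
  have hne : U ≠ Set.univ := fun h => hv (h ▸ Set.mem_univ v)
  obtain ⟨x, hx, y, hy, ha⟩ := (h1 V B Set.univ (con_univ.2 hB)).1 U (Set.subset_univ _) hU hne
  exact h x hx y hy.2 ha

private theorem red {V : Type} {A : SimpleGraph (Fin 2)} {B : SimpleGraph V} {s : Set (Fin 2 ⊕ V)}
    (hcon : ((jn A B).induce s).Connected) (h0 : Sum.inl 0 ∉ s) (h1 : Sum.inl 1 ∉ s) :
    Con B {v | Sum.inr v ∈ s} := by
  have hex : ∀ x : s, ∃ v : V, x.1 = Sum.inr v := by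
    rintro ⟨x, hx⟩
    rcases x with a | v
    · fin_cases a
      · exact absurd hx h0
      · exact absurd hx h1
    · exact ⟨v, rfl⟩
  choose g hg using hex
  let f : (jn A B).induce s →g B.induce {v | Sum.inr v ∈ s} :=
    { toFun := fun x => ⟨g x, by
        change Sum.inr (g x) ∈ s
        rw [← hg x]; exact x.2⟩
      map_rel' := by
        intro x y hxy
        change B.Adj (g x) (g y)
        have h : (jn A B).Adj x.1 y.1 := hxy
        rw [hg x, hg y] at h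
        exact h }
  refine SimpleGraph.Connected.map f ?_ hcon
  rintro ⟨v, hv⟩
  refine ⟨⟨Sum.inr v, hv⟩, ?_⟩
  apply Subtype.ext
  have := hg ⟨Sum.inr v, hv⟩
  exact (Sum.inr_injective this).symm

private theorem red2 {V : Type} {A : SimpleGraph (Fin 2)} {B : SimpleGraph V} {s t : Set (Fin 2 ⊕ V)}
    (h : ∃ x ∈ s, ∃ y ∈ t, (jn A B).Adj x y) (h0 : Sum.inl 0 ∉ s) (h1 : Sum.inl 1 ∉ s)
    (h0' : Sum.inl 0 ∉ t) (h1' : Sum.inl 1 ∉ t) : Tch B {v | Sum.inr v ∈ s} {v | Sum.inr v ∈ t} := by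
  obtain ⟨x, hx, y, hy, ha⟩ := h
  rcases x with a | v
  · fin_cases a
    · exact absurd hx h0
    · exact absurd hx h1
  · rcases y with a | v'
    · fin_cases a
      · exact absurd hy h0'
      · exact absurd hy h1'
    · exact ⟨v, hx, v', hy, ha⟩

private theorem dsj {V : Type} {s t : Set (Fin 2 ⊕ V)} (h : Disjoint s t) :
    Disjoint {v : V | Sum.inr v ∈ s} {v | Sum.inr v ∈ t} :=
  Set.disjoint_left.2 fun _ h1 h2 => Set.disjoint_left.1 h h1 h2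

private theorem twoidx {V W : Type} [Nontrivial W] {φ : W → Set (Fin 2 ⊕ V)}
    (hdis : ∀ w w', w ≠ w' → Disjoint (φ w) (φ w')) :
    ∃ p q : W, p ≠ q ∧ ∀ w, w ≠ p → w ≠ q → Sum.inl 0 ∉ φ w ∧ Sum.inl 1 ∉ φ w := by
  have key : ∀ i : Fin 2, ∃ p : W, ∀ w, w ≠ p → Sum.inl i ∉ φ w := by
    intro i
    by_cases h : ∃ p, Sum.inl i ∈ φ p
    · obtain ⟨p, hp⟩ := h
      exact ⟨p, fun w hw hmem => Set.disjoint_left.1 (hdis w p hw) hmem hp⟩
    · push Not at h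
      obtain ⟨p, -⟩ := exists_pair_ne W
      exact ⟨p, fun w _ => h w⟩
  obtain ⟨p, hp⟩ := key 0
  obtain ⟨q, hq⟩ := key 1
  by_cases hpq : p = q
  · obtain ⟨q', hq'⟩ := exists_ne p
    exact ⟨p, q', hq'.symm, fun w h1 _ => ⟨hp w h1, hq w (hpq ▸ h1)⟩⟩
  · exact ⟨p, q, hpq, fun w h1 h2 => ⟨hp w h1, hq w h2⟩⟩

private theorem fin1 {V W : Type} {B : SimpleGraph V} {φ : W → Set (Fin 2 ⊕ V)} {p q : W}
    (hdis : ∀ w w', w ≠ w' → Disjoint (φ w) (φ w'))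
    (hadj : ∃ x ∈ φ p, ∃ y ∈ φ q, (jn (⊥ : SimpleGraph (Fin 2)) B).Adj x y)
    (hall : ∀ v : V, ∃ r, r ≠ p ∧ r ≠ q ∧ Sum.inr v ∈ φ r) : False := by
  obtain ⟨x, hx, y, hy, ha⟩ := hadj
  rcases x with a | v
  · rcases y with b | v
    · exact ha
    · obtain ⟨r, _, h2, h3⟩ := hall v
      exact Set.disjoint_left.1 (hdis r q h2) h3 hy
  · obtain ⟨r, h2, _, h3⟩ := hall v
    exact Set.disjoint_left.1 (hdis r p h2) h3 hx

private theorem tri {V : Type} {B : SimpleGraph V} {S0 S1 S2 : Set V} (c0 : Con B S0) (c1 : Con B S1)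
    (c2 : Con B S2) (t01 : Tch B S0 S1) (t02 : Tch B S0 S2) (t12 : Tch B S1 S2) (d01 : Disjoint S0 S1)
    (d02 : Disjoint S0 S2) (d12 : Disjoint S1 S2) : IsMinor (⊤ : SimpleGraph (Fin 3)) B := by
  refine ⟨![S0, S1, S2], ?_, ?_, ?_⟩
  · intro w
    fin_cases w
    · exact c0
    · exact c1
    · exact c2
  · intro w w' hne
    fin_cases w <;> fin_cases w'
    · exact absurd rfl hne
    · exact d01
    · exact d02
    · exact d01.symm
    · exact absurd rfl hne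
    · exact d12
    · exact d02.symm
    · exact d12.symm
    · exact absurd rfl hne
  · intro w w' hne
    fin_cases w <;> fin_cases w'
    · exact absurd rfl hne.ne
    · exact t01
    · exact t02
    · exact tch_symm t01
    · exact absurd rfl hne.ne
    · exact t12
    · exact tch_symm t02
    · exact tch_symm t12
    · exact absurd rfl hne.ne

private theorem idx5 : ∀ p q : Fin 5, p ≠ q → ∃ a b c : Fin 5, a ≠ b ∧ a ≠ c ∧ b ≠ c ∧ a ≠ p ∧ a ≠ q ∧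
    b ≠ p ∧ b ≠ q ∧ c ≠ p ∧ c ≠ q := by decide

private theorem idx3 : ∀ p : Fin 3, ∃ a b : Fin 3, a ≠ b ∧ a ≠ p ∧ b ≠ p := by decide

private theorem idx3' : ∀ p q : Fin 3, ∃ r : Fin 3, r ≠ p ∧ r ≠ q := by decide

/-- the dichotomy for `K₃,₃` -/
private theorem idx33 (p q : Fin 3 ⊕ Fin 3) (hpq : p ≠ q) :
    (∃ r a b c : Fin 3 ⊕ Fin 3, (r ≠ p ∧ r ≠ q) ∧ (a ≠ p ∧ a ≠ q) ∧ (b ≠ p ∧ b ≠ q) ∧ (c ≠ p ∧ c ≠ q) ∧
      a ≠ b ∧ a ≠ c ∧ b ≠ c ∧
      (completeBipartiteGraph (Fin 3) (Fin 3)).Adj r a ∧ (completeBipartiteGraph (Fin 3) (Fin 3)).Adj r b ∧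
      (completeBipartiteGraph (Fin 3) (Fin 3)).Adj r c) ∨
    ((completeBipartiteGraph (Fin 3) (Fin 3)).Adj p q ∧ ∃ a b c d : Fin 3 ⊕ Fin 3,
      (a ≠ p ∧ a ≠ q) ∧ (b ≠ p ∧ b ≠ q) ∧ (c ≠ p ∧ c ≠ q) ∧ (d ≠ p ∧ d ≠ q) ∧
      a ≠ b ∧ c ≠ d ∧
      (completeBipartiteGraph (Fin 3) (Fin 3)).Adj a c ∧ (completeBipartiteGraph (Fin 3) (Fin 3)).Adj a d ∧
      (completeBipartiteGraph (Fin 3) (Fin 3)).Adj b c ∧ (completeBipartiteGraph (Fin 3) (Fin 3)).Adj b d) := by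
  rcases p with p | p <;> rcases q with q | q
  · left
    obtain ⟨r, h1, h2⟩ := idx3' p q
    refine ⟨Sum.inl r, Sum.inr 0, Sum.inr 1, Sum.inr 2, ?_⟩
    simp [h1, h2]
  · right
    obtain ⟨a, b, h1, h2, h3⟩ := idx3 p
    obtain ⟨c, d, h4, h5, h6⟩ := idx3 q
    refine ⟨by simp, Sum.inl a, Sum.inl b, Sum.inr c, Sum.inr d, ?_⟩
    simp [h1, h2, h3, h4, h5, h6]
  · right
    obtain ⟨a, b, h1, h2, h3⟩ := idx3 q
    obtain ⟨c, d, h4, h5, h6⟩ := idx3 p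
    refine ⟨by simp, Sum.inl a, Sum.inl b, Sum.inr c, Sum.inr d, ?_⟩
    simp [h1, h2, h3, h4, h5, h6]
  · left
    obtain ⟨r, h1, h2⟩ := idx3' p q
    refine ⟨Sum.inr r, Sum.inl 0, Sum.inl 1, Sum.inl 2, ?_⟩
    simp [h1, h2]

private theorem no5 (h1 : StCon) (h2 : StDeg) (h3 : StAcy) {V : Type} [Finite V] {B : SimpleGraph V}
    (hd : ∀ v, (B.neighborSet v).ncard ≤ 2) (A : SimpleGraph (Fin 2))
    (hc : (A = ⊥ ∧ B.Connected) ∨ B.IsAcyclic) : ¬ IsMinor (⊤ : SimpleGraph (Fin 5)) (jn A B) := by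
  rintro ⟨φ, hcon, hdis, hadj⟩
  obtain ⟨p, q, hpq, hJ⟩ := twoidx hdis
  obtain ⟨a, b, c, ab, ac, bc, ap, aq, bp, bq, cp, cq⟩ := idx5 p q hpq
  have Ja := hJ a ap aq
  have Jb := hJ b bp bq
  have Jc := hJ c cp cq
  have Ca := red (hcon a) Ja.1 Ja.2
  have Cb := red (hcon b) Jb.1 Jb.2
  have Cc := red (hcon c) Jc.1 Jc.2
  have tab := red2 (hadj a b ab) Ja.1 Ja.2 Jb.1 Jb.2
  have tac := red2 (hadj a c ac) Ja.1 Ja.2 Jc.1 Jc.2
  have tbc := red2 (hadj b c bc) Jb.1 Jb.2 Jc.1 Jc.2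
  have dab := dsj (hdis a b ab)
  have dac := dsj (hdis a c ac)
  have dbc := dsj (hdis b c bc)
  rcases hc with ⟨rfl, hB⟩ | hac
  · have hU : ∀ v, v ∈ {v : V | Sum.inr v ∈ φ a} ∪ ({v | Sum.inr v ∈ φ b} ∪ {v | Sum.inr v ∈ φ c}) := by
      refine fill h1 hB ((con_nonempty Ca).mono Set.subset_union_left) ?_
      intro x hx y hy hxy
      simp only [Set.mem_union, not_or] at hy
      rcases hx with hx | hx | hx
      · rcases noleave h2 hd Ca tab tac dab dac dbc hx hy.1 hxy with h | h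
        · exact hy.2.1 h
        · exact hy.2.2 h
      · rcases noleave h2 hd Cb (tch_symm tab) tbc dab.symm dbc dac hx hy.2.1 hxy with h | h
        · exact hy.1 h
        · exact hy.2.2 h
      · rcases noleave h2 hd Cc (tch_symm tac) (tch_symm tbc) dac.symm dbc.symm dab hx hy.2.2 hxy with h | h
        · exact hy.1 h
        · exact hy.2.1 h
    refine fin1 hdis (hadj p q hpq) fun v => ?_
    rcases hU v with h | h | h
    · exact ⟨a, ap, aq, h⟩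
    · exact ⟨b, bp, bq, h⟩
    · exact ⟨c, cp, cq, h⟩
  · exact (h3 V B).1 hac (tri Ca Cb Cc tab tac tbc dab dac dbc)

private theorem no33 (h1 : StCon) (h2 : StDeg) (h3 : StAcy) {V : Type} [Finite V] {B : SimpleGraph V}
    (hd : ∀ v, (B.neighborSet v).ncard ≤ 2) (A : SimpleGraph (Fin 2))
    (hc : (A = ⊥ ∧ B.Connected) ∨ B.IsAcyclic) :
    ¬ IsMinor (completeBipartiteGraph (Fin 3) (Fin 3)) (jn A B) := by
  rintro ⟨φ, hcon, hdis, hadj⟩
  have : Nontrivial (Fin 3 ⊕ Fin 3) := ⟨Sum.inl 0, Sum.inr 0, by simp⟩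
  obtain ⟨p, q, hpq, hJ⟩ := twoidx hdis
  rcases idx33 p q hpq with ⟨r, a, b, c, hr, ha, hb, hc', ab, ac, bc, ra, rb, rc⟩ |
    ⟨apq, a, b, c, d, ha, hb, hc', hd', ab, cd, aac, aad, abc, abd⟩
  · have Jr := hJ r hr.1 hr.2
    have Ja := hJ a ha.1 ha.2
    have Jb := hJ b hb.1 hb.2
    have Jc := hJ c hc'.1 hc'.2
    exact deg3 h2 hd (red (hcon r) Jr.1 Jr.2)
      (red2 (hadj r a ra) Jr.1 Jr.2 Ja.1 Ja.2) (red2 (hadj r b rb) Jr.1 Jr.2 Jb.1 Jb.2)
      (red2 (hadj r c rc) Jr.1 Jr.2 Jc.1 Jc.2) (dsj (hdis r a ra.ne)) (dsj (hdis r b rb.ne))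
      (dsj (hdis r c rc.ne)) (dsj (hdis a b ab)) (dsj (hdis a c ac)) (dsj (hdis b c bc))
  · have Ja := hJ a ha.1 ha.2
    have Jb := hJ b hb.1 hb.2
    have Jc := hJ c hc'.1 hc'.2
    have Jd := hJ d hd'.1 hd'.2
    have Ca := red (hcon a) Ja.1 Ja.2
    have Cb := red (hcon b) Jb.1 Jb.2
    have Cc := red (hcon c) Jc.1 Jc.2
    have Cd := red (hcon d) Jd.1 Jd.2
    have tac := red2 (hadj a c aac) Ja.1 Ja.2 Jc.1 Jc.2
    have tad := red2 (hadj a d aad) Ja.1 Ja.2 Jd.1 Jd.2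
    have tbc := red2 (hadj b c abc) Jb.1 Jb.2 Jc.1 Jc.2
    have tbd := red2 (hadj b d abd) Jb.1 Jb.2 Jd.1 Jd.2
    have dab := dsj (hdis a b ab)
    have dcd := dsj (hdis c d cd)
    have dac := dsj (hdis a c aac.ne)
    have dad := dsj (hdis a d aad.ne)
    have dbc := dsj (hdis b c abc.ne)
    have dbd := dsj (hdis b d abd.ne)
    rcases hc with ⟨rfl, hB⟩ | hac
    · have hU : ∀ v, v ∈ ({v : V | Sum.inr v ∈ φ a} ∪ {v | Sum.inr v ∈ φ b}) ∪
          ({v | Sum.inr v ∈ φ c} ∪ {v | Sum.inr v ∈ φ d}) := by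
        refine fill h1 hB (((con_nonempty Ca).mono Set.subset_union_left).mono Set.subset_union_left) ?_
        intro x hx y hy hxy
        simp only [Set.mem_union, not_or] at hy
        rcases hx with (hx | hx) | (hx | hx)
        · rcases noleave h2 hd Ca tac tad dac dad dcd hx hy.1.1 hxy with h | h
          · exact hy.2.1 h
          · exact hy.2.2 h
        · rcases noleave h2 hd Cb tbc tbd dbc dbd dcd hx hy.1.2 hxy with h | h
          · exact hy.2.1 h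
          · exact hy.2.2 h
        · rcases noleave h2 hd Cc (tch_symm tac) (tch_symm tbc) dac.symm dbc.symm dab hx hy.2.1 hxy with h | h
          · exact hy.1.1 h
          · exact hy.1.2 h
        · rcases noleave h2 hd Cd (tch_symm tad) (tch_symm tbd) dad.symm dbd.symm dab hx hy.2.2 hxy with h | h
          · exact hy.1.1 h
          · exact hy.1.2 h
      refine fin1 hdis (hadj p q apq) fun v => ?_
      rcases hU v with (h | h) | (h | h)
      · exact ⟨a, ha.1, ha.2, h⟩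
      · exact ⟨b, hb.1, hb.2, h⟩
      · exact ⟨c, hc'.1, hc'.2, h⟩
      · exact ⟨d, hd'.1, hd'.2, h⟩
    · refine (h3 V B).1 hac (tri (con_union Ca Cc tac) Cb Cd ?_ ?_ tbd ?_ ?_ dbd)
      · exact tch_mono (tch_symm tbc) Set.subset_union_right subset_rfl
      · exact tch_mono tad Set.subset_union_left subset_rfl
      · exact Set.disjoint_union_left.2 ⟨dab, dbc.symm⟩
      · exact Set.disjoint_union_left.2 ⟨dad, dcd⟩

theorem hPLB (h1 : StCon) (h2 : StDeg) (h3 : StAcy) : StPlb := by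
  intro V _ B
  refine ⟨fun hC => ⟨?_, ?_⟩, fun hA hd => ⟨?_, ?_⟩⟩
  · exact no5 h1 h2 h3 hC.2 ⊥ (Or.inl ⟨rfl, hC.1⟩)
  · exact no33 h1 h2 h3 hC.2 ⊥ (Or.inl ⟨rfl, hC.1⟩)
  · exact no5 h1 h2 h3 hd ⊤ (Or.inr hA)
  · exact no33 h1 h2 h3 hd ⊤ (Or.inr hA)

end Pool.Agent.Helper22.AJ
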